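import Pool.Agent.H24.RG.Ram3
import Pool.Agent.H24.ZL.LowZ

/-!
# [H24 RG Glb] THEOREM Z0 (MP_e49dc9_ag), (GLB): the lower bound for `u N ^ n`, `N . N = 0`
-/

set_option autoImplicit false

namespace Pool.Agent.H24.RG

open Pool.Agent.H54.RV Pool.Agent.H83.TU Pool.Agent.H83.TK Pool.Agent.H24.TK Pool.Agent.H41.TK Pool.Agent.H24.VP Pool.Agent.H24.ZL

variable {k K : Type} [Field k] [Field K] [Algebra k K] {X : Mod k K}
  {T : Cart X → Cart X → Cart X → ℝ} {l : Cart X → ℝ} {c : ℝ} {H : Cart X} {k' L : Type} [Field k'] [Field L]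
  [Algebra k' L] {S : Mod k' L} {ψ : Cart X →* Cart S}

/-- the constant of `cc_qc` for `N`, `u` -/
theorem exists_K (hX : IsVar X) (hr : RR T l c) (hS : Sf H S ψ) {N : Cart X} (u : Cart X) (hβ : 0 < T N H H)
    (hnef : ∀ E, Cls S ψ E → 0 ≤ T N E H) : ∃ K₁ : ℝ, 0 ≤ K₁ ∧ |T u H H| ≤ K₁ * T H H H ∧
      ∀ E, Cls S ψ E → |T u E H| ≤ K₁ * T E H H := by
  obtain ⟨G, hG⟩ : ∃ G : Fin 2 → Cart X, G = ![N, u] := ⟨_, rfl⟩
  obtain ⟨p, hp⟩ : ∃ p : Fin 2 → ℝ, p = ![1, 0] := ⟨_, rfl⟩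
  have e : ∀ U V, t1 T G p U V = T N U V := fun U V => by
    unfold t1
    rw [hG, hp]
    simp [Fin.sum_univ_two]
  obtain ⟨K₁, hK₁, hcc⟩ := cc_qc (T := T) (G := G) (p := p) hX hr hS (by rw [e]; exact hβ)
    (fun E hE => by rw [e]; exact hnef E hE)
  have e1 : G 1 = u := by rw [hG]; rfl
  refine ⟨K₁, hK₁, ?_, fun E hE => ?_⟩
  · have := hcc.self.2.2 1
    rwa [e1] at this
  · have := (hcc.cls E hE).2.2 1
    rwa [e1] at this

theorem glb_core (hX : IsVar X) (hr : RR T l c) (hS : Sf H S ψ) {N u : Cart X} (hNN : T N N H = 0)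
    (hβ : 0 < T N H H) (hnef : ∀ E, Cls S ψ E → 0 ≤ T N E H) (hu : 3 / 2 * T N H H < T N u H) :
    ∃ (C : ℝ) (n₀ : ℕ), ∀ n ≥ n₀, chi T l c (u * N ^ n) - C ≤ h0 (u * N ^ n) 1 := by
  classical
  have ht := hr.tri
  have hi : ∀ A B C, ∃ z : ℤ, T A B C = z := t_int hr ⟨H, hS.hH⟩
  obtain ⟨K₁, hK₁, hKH, hKE⟩ := exists_K hX hr hS u hβ hnef
  obtain ⟨h₀, n₁, hh, hst⟩ := stuck hr hS hi hNN hβ (show 0 < T N u H by linarith) hK₁
  obtain ⟨c₁, hc₁⟩ : ∃ c₁, c₁ = K₁ * h₀ + h₀ ^ 2 := ⟨_, rfl⟩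
  have hc0 : 0 ≤ c₁ := by rw [hc₁]; positivity
  obtain ⟨C, hC⟩ := low3 hr hS hh hc0
  obtain ⟨β, hβd⟩ : ∃ β, β = T N H H := ⟨_, rfl⟩
  obtain ⟨κ, hκd⟩ : ∃ κ, κ = T H H H := ⟨_, rfl⟩
  obtain ⟨t, htd⟩ : ∃ t, t = T N u H := ⟨_, rfl⟩
  obtain ⟨n₂, hn₂⟩ := exists_nat_gt ((2 * κ - T u H H) / β)
  obtain ⟨n₃, hn₃⟩ := exists_nat_gt ((3 / 2 * T u H H - T u u H / 2 - (7 / 6 * κ + l H)) / (t - 3 / 2 * β))
  refine ⟨C, n₁ + n₂ + n₃, fun n hn => ?_⟩
  obtain ⟨M, hM⟩ : ∃ M, M = u * N ^ n := ⟨_, rfl⟩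
  have hMU : ∀ U, T M U H = T u U H + n * T N U H := fun U => by rw [hM, ht.add, ht.pow]
  rw [← hM]
  refine hC M (M * H⁻¹) (by rw [mul_comm, inv_mul_cancel_right]) (fun r E hE hL s hs hcon => ?_) ?_
  · have hnum := le_num hr hS hL
    -- the sum decomposition
    have hsum : ∀ (s' : Finset (Fin r)) (U : Cart X),
        T (u * N ^ n) U H = T (H * ∏ j ∈ s', E j) U H + T (∏ j ∈ s'ᶜ, E j) U H := by
      intro s' U
      have h1 : (H * ∏ j ∈ s', E j) * ∏ j ∈ s'ᶜ, E j = H * ∏ j, E j := by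
        rw [mul_assoc, Finset.prod_mul_prod_compl]
      rw [← ht.add, h1, ht.add H, ← hnum, ← ht.add, ← hM, mul_comm H, inv_mul_cancel_right]
    have hRH : ∀ s' : Finset (Fin r), T (∏ j ∈ s'ᶜ, E j) H H = ∑ j ∈ s'ᶜ, T (E j) H H := fun s' => by
      rw [ht.prod]
    have hRN : ∀ s' : Finset (Fin r), T N (∏ j ∈ s'ᶜ, E j) H = ∑ j ∈ s'ᶜ, T N (E j) H := fun s' => by
      rw [ht.prod2]
    have hab : ∀ s' : Finset (Fin r), |T u (∏ j ∈ s', E j) H| ≤ K₁ * T (∏ j ∈ s', E j) H H := fun s' => by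
      rw [ht.prod2, ht.prod, Finset.mul_sum]
      exact (Finset.abs_sum_le_sum_abs _ _).trans (Finset.sum_le_sum fun j _ => hKE _ (hE j))
    have hne : ∀ s' : Finset (Fin r), s' ≠ Finset.univ → (s'ᶜ).Nonempty := by
      intro s' h1
      rw [Finset.nonempty_iff_ne_empty]
      intro h2
      rw [Finset.compl_eq_empty_iff] at h2
      exact h1 h2
    have hRpos : 0 < T (∏ j ∈ sᶜ, E j) H H := by
      rw [hRH]
      exact Finset.sum_pos (fun j _ => cls_pos hr hS (hE j)) (hne s hs)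
    have hZpos : 0 < T (H * ∏ j ∈ s, E j) H H := by
      rw [ht.add, ht.prod]
      exact add_pos_of_pos_of_nonneg (crv_num hr hS).1 (Finset.sum_nonneg fun j _ => (cls_pos hr hS (hE j)).le)
    have hZN : 0 < T N (H * ∏ j ∈ s, E j) H := by
      rw [ht.add2, ht.prod2]
      exact add_pos_of_pos_of_nonneg hβ (Finset.sum_nonneg fun j _ => hnef _ (hE j))
    have hRN0 : 0 ≤ T N (∏ j ∈ sᶜ, E j) H := by
      rw [hRN]
      exact Finset.sum_nonneg fun j _ => hnef _ (hE j)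
    have hZu : |T u (H * ∏ j ∈ s, E j) H| ≤ K₁ * T (H * ∏ j ∈ s, E j) H H := by
      rw [ht.add2, ht.add, mul_add]
      exact (abs_add_le _ _).trans (add_le_add hKH (hab s))
    have hZR : T (H * ∏ j ∈ s, E j) (∏ j ∈ sᶜ, E j) H ≤ 0 := by
      rw [ht.prod2]
      exact Finset.sum_nonpos fun j hj => hcon j (Finset.mem_compl.1 hj)
    obtain ⟨h1, h2⟩ := hst n (by omega) _ _ ⟨hZpos, hZN, hZu⟩ ⟨hRpos, hRN0, hab sᶜ⟩ (hsum s) hZR
    rw [hRN] at h1
    rw [hRH] at h2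
    refine ⟨h2, fun s' hs' hne' => ?_⟩
    have hsub : s'ᶜ ⊆ sᶜ := Finset.compl_subset_compl.2 hs'
    have hN0 : ∀ j ∈ sᶜ, T N (E j) H = 0 :=
      (Finset.sum_eq_zero_iff_of_nonneg fun j _ => hnef _ (hE j)).1 h1
    obtain ⟨R, hR⟩ : ∃ R, R = ∏ j ∈ s'ᶜ, E j := ⟨_, rfl⟩
    have hRN' : T N R H = 0 := by
      rw [hR, hRN]
      exact Finset.sum_eq_zero fun j hj => hN0 j (hsub hj)
    have hR0 : 0 ≤ T R H H := by
      rw [hR, hRH]
      exact Finset.sum_nonneg fun j _ => (cls_pos hr hS (hE j)).le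
    have hRh : T R H H ≤ h₀ := by
      rw [hR, hRH]
      exact (Finset.sum_le_sum_of_subset_of_nonneg hsub fun j _ _ => (cls_pos hr hS (hE j)).le).trans h2
    have h3 := hsum s' R
    rw [← hR, ← hM, hMU, hRN', mul_zero, add_zero] at h3
    have h4 := sq_bd hr hS hR0 hRh
    have h5 : |T u R H| ≤ K₁ * T R H H := by
      rw [hR]
      exact hab s'ᶜ
    have h6 := (abs_le.1 h5).1
    have h7 := mul_le_mul_of_nonneg_left hRh hK₁
    have h8 : -c₁ ≤ T (H * ∏ j ∈ s', E j) R H := by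
      rw [hc₁]
      linarith
    by_contra hno
    push Not at hno
    obtain ⟨a₀, ha₀⟩ := hne s' hne'
    have h9 : T (H * ∏ j ∈ s', E j) R H ≤ T (H * ∏ j ∈ s', E j) (E a₀) H := by
      rw [hR, ht.prod2]
      have h10 := Finset.single_le_sum (f := fun j => -T (H * ∏ j ∈ s', E j) (E j) H)
        (fun j hj => by
          have := hno j (Finset.mem_compl.1 hj)
          linarith) ha₀
      simp only [Finset.sum_neg_distrib] at h10
      linarith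
    have h10 := hno a₀ (Finset.mem_compl.1 ha₀)
    linarith
  · have hn2 : (2 * κ - T u H H) / β < n := hn₂.trans_le (by exact_mod_cast (show n₂ ≤ n by omega))
    have hn3 : (3 / 2 * T u H H - T u u H / 2 - (7 / 6 * κ + l H)) / (t - 3 / 2 * β) < n :=
      hn₃.trans_le (by exact_mod_cast (show n₃ ≤ n by omega))
    have hβ0 : 0 < β := by rw [hβd]; exact hβ
    rw [div_lt_iff₀ hβ0] at hn2
    rw [div_lt_iff₀ (by rw [htd, hβd]; linarith)] at hn3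
    have e1 : T (M * H⁻¹) H H = T M H H - κ := by
      rw [ht.add, ht.inv, ← hκd]
      ring
    have e3 : T M H H = T u H H + n * β := by rw [hMU, hβd]
    have e4 : T M M H = T u u H + 2 * n * t := by
      rw [hMU, ht.s12 u M H, ht.s12 N M H, hMU u, hMU N, hNN, ht.s12 u N H, htd]
      ring
    have hlt : T H H H < T (M * H⁻¹) H H := by
      rw [e1, ← hκd, e3]
      linarith
    have e2 : chS T l H (M * H⁻¹) = T M M H / 2 - 3 / 2 * T M H H + (7 / 6 * κ + l H) := by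
      unfold chS
      rw [e1]
      simp only [ht.add, ht.add2, ht.inv, ht.inv2]
      rw [ht.s12 H M H, ← hκd]
      ring
    have h5 := t4 hr hS _ hlt
    rw [e2, e4, e3] at h5
    have h6 : (0 : ℝ) < h0 (ψ (M * H⁻¹)) 1 := by
      refine lt_of_lt_of_le ?_ h5
      nlinarith
    exact_mod_cast h6

/-- a nef class is nonnegative on the curves -/
theorem nef_cls (hr : RR T l c) (hS : Sf H S ψ) {N : Cart X} (hN : ∀ B : Cart X, Ample B → Ample (B * N)) {E : Cart X}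
    (hE : Cls S ψ E) : 0 ≤ T N E H := by
  have h1 : ∀ n : ℕ, Ample (H * N ^ n) := by
    intro n
    induction n with
    | zero =>
      rw [pow_zero, mul_one]
      exact hS.hH
    | succ n ih =>
      rw [pow_succ, ← mul_assoc]
      exact hN _ ih
  by_contra hneg
  push Not at hneg
  obtain ⟨n, hn⟩ := exists_nat_gt (T H E H / -T N E H)
  rw [div_lt_iff₀ (by linarith)] at hn
  have h2 := cv_pos hr hS hE (h1 n)
  rw [hr.tri.add, hr.tri.pow] at h2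
  linarith

/-- **(GLB)** for all classes `u` with `T(N,u,A)` large -/
theorem glb_one [CharZero k] [T0Space X.P] (h : Hyp X) (hr : RR T l c) {A N : Cart X} (hA : Ample A)
    (hN : ∀ B : Cart X, Ample B → Ample (B * N)) (hNN : ∀ U, T N N U = 0) (hNA : 0 < T N A A) :
    ∃ m₀ : ℝ, 0 ≤ m₀ ∧ ∀ u : Cart X, m₀ < T N u A → ∃ (C : ℝ) (n₀ : ℕ), ∀ n ≥ n₀,
      (n : ℝ) * (T N u u / 2 + l N) - C ≤ h0 (u * N ^ n) 1 := by
  obtain ⟨m, k', L, i1, i2, i3, S, ψ, hm, hS⟩ := exists_sf h hA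
  have ht := hr.tri
  have hm0 : (0 : ℝ) < m := by exact_mod_cast hm
  refine ⟨3 / 2 * m * T N A A, by positivity, fun u hu => ?_⟩
  have hβ : T N (A ^ m) (A ^ m) = m * (m * T N A A) := by rw [ht.pow2, ht.pow3]
  obtain ⟨C, n₀, hC⟩ := glb_core h.var hr hS (N := N) (u := u) (hNN _) (by rw [hβ]; positivity)
    (fun E hE => nef_cls hr hS hN hE) (by
      rw [hβ, ht.pow3]
      nlinarith)
  refine ⟨C - (T u u u / 6 + l u + c), n₀, fun n hn => ?_⟩
  have h1 := hC n hn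
  have h2 : chi T l c (u * N ^ n) = n * (T N u u / 2 + l N) + (T u u u / 6 + l u + c) := by
    unfold Pool.Agent.H24.VP.chi
    have e1 : l (u * N ^ n) = l u + n * l N := by rw [hr.ladd, hr.l_pow]
    have e2 : T (u * N ^ n) (u * N ^ n) (u * N ^ n) = T u u u + 3 * (n * T N u u) := by
      simp only [ht.add, ht.add2, ht.add3, ht.pow, ht.pow2, ht.pow3]
      rw [hNN, hNN, ht.s12 u N N, ht.s23 N u N, hNN, ht.s12 u N u, ht.s23 u u N, ht.s12 u N u]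
      ring
    rw [e1, e2]
    ring
  linarith

/-- **(GLB)** -/
theorem glb' [CharZero k] [T0Space X.P] (h : Hyp X) (hr : RR T l c) {A N u : Cart X} (hA : Ample A)
    (hN : ∀ B : Cart X, Ample B → Ample (B * N)) (hNN : ∀ U, T N N U = 0) (hNA : 0 < T N A A) (hu : 0 < T N u A) :
    ∃ j₀ : ℕ, ∀ j ≥ j₀, ∃ (C : ℝ) (n₀ : ℕ), ∀ n ≥ n₀,
      (n : ℝ) * ((j : ℝ) ^ 2 * T N u u / 2 + l N) - C ≤ h0 (u ^ j * N ^ n) 1 := by
  obtain ⟨m₀, hm₀, h1⟩ := glb_one h hr hA hN hNN hNA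
  have ht := hr.tri
  obtain ⟨j₀, hj₀⟩ := exists_nat_gt (m₀ / T N u A)
  refine ⟨j₀, fun j hj => ?_⟩
  have hjj : m₀ / T N u A < j := hj₀.trans_le (by exact_mod_cast hj)
  rw [div_lt_iff₀ hu] at hjj
  obtain ⟨C, n₀, hC⟩ := h1 (u ^ j) (by rw [ht.pow2]; exact hjj)
  refine ⟨C, n₀, fun n hn => ?_⟩
  have h2 := hC n hn
  rw [ht.pow2, ht.pow3] at h2
  have e : (j : ℝ) * (j * T N u u) / 2 + l N = (j : ℝ) ^ 2 * T N u u / 2 + l N := by ring
  rwa [e] at h2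

end Pool.Agent.H24.RG
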