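import Pool.Agent.H36.RZ.Shp
import Pool.Agent.H24.RL.Con2

/-!
# [H24 RG Cost] THEOREM Z0 (MP_e49dc9_ag), (GLB): the cost of a curve, and the light cone estimate
-/

set_option autoImplicit false

namespace Pool.Agent.H24.RG

open Pool.Agent.H54.RV Pool.Agent.H83.TU Pool.Agent.H83.TK Pool.Agent.H24.TK Pool.Agent.H41.TK Pool.Agent.H24.VP Pool.Agent.H24.ZL
open Pool.Agent.H36.RZ (bl bl_apply bl_symm shp neg_le Dvd)
open Pool.Agent.H24.RL (lc_abs)

variable {k K : Type} [Field k] [Field K] [Algebra k K] {X : Mod k K}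
  {T : Cart X → Cart X → Cart X → ℝ} {l : Cart X → ℝ} {c : ℝ} {H : Cart X} {k' L : Type} [Field k'] [Field L]
  [Algebra k' L] {S : Mod k' L} {ψ : Cart X →* Cart S}

theorem cls_pos (hr : RR T l c) (hS : Sf H S ψ) {E : Cart X} (hE : Cls S ψ E) : 0 < T E H H := by
  have h1 := cv_pos hr hS hE hS.hH
  rwa [hr.tri.s12] at h1

theorem cls_one (hr : RR T l c) (hS : Sf H S ψ) {E : Cart X} (hE : Cls S ψ E) : 1 ≤ T E H H := by
  have h1 := cls_pos hr hS hE
  obtain ⟨z, hz⟩ := t_int hr ⟨H, hS.hH⟩ E H H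
  rw [hz] at h1 ⊢
  exact_mod_cast h1

/-- `e` divides the positive degree -/
theorem dvd_le {E : Cart X} {e : ℕ} (ht : Tri T) (h : Dvd T H E e) (hp : 0 < T E H H) : (e : ℝ) ≤ T E H H := by
  obtain ⟨z, hz⟩ := h.2 H
  rw [ht.s12] at hz
  have he : (1 : ℝ) ≤ e := by exact_mod_cast h.1
  rw [hz] at hp ⊢
  have h1 : (0 : ℝ) < z := by
    by_contra h2
    push Not at h2
    have := mul_nonpos_of_nonneg_of_nonpos (show (0 : ℝ) ≤ e by linarith) h2
    linarith
  have h2 : (1 : ℝ) ≤ z := by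
    have : (0 : ℤ) < z := by exact_mod_cast h1
    exact_mod_cast this
  nlinarith

/-- the cost of a curve -/
theorem cost (hr : RR T l c) (hS : Sf H S ψ) {E : Cart X} (hE : Cls S ψ E) (W : Cart X) :
    (h0 (ψ W) 1 : ℝ) - chS T l H W ≤ h0 (ψ (W * E⁻¹)) 1 - chS T l H (W * E⁻¹) + max (-T W E H) 0 + T E H H +
      (T E E H + T E H H) / 2 := by
  have hp := cls_pos hr hS hE
  have h1 : chS T l H W - chS T l H (W * E⁻¹) = T W E H - (T E E H + T E H H) / 2 := by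
    rw [hr.chS_sub]
  rcases lt_or_ge (T W E H) 0 with h2 | h2
  · have h3 := neg_le hr hS hE h2
    have h4 : (h0 (ψ W) 1 : ℝ) ≤ h0 (ψ (W * E⁻¹)) 1 := by exact_mod_cast h3
    have h5 := le_max_left (-T W E H) 0
    linarith
  · obtain ⟨e, he, h3⟩ := shp hr hS hE
    have h4 := h3 W h2
    have h5 := dvd_le hr.tri he hp
    have h6 := le_max_right (-T W E H) 0
    linarith

/-- adjunction and the inequality of Riemann for the trivial class -/
theorem adj_ge (hr : RR T l c) (hS : Sf H S ψ) {E : Cart X} (hE : Cls S ψ E) : -(3 * T E H H) ≤ T E E H := by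
  have hp := cls_pos hr hS hE
  obtain ⟨y, C, hC, ht, hCE⟩ := hE
  have hchar := hS.char
  obtain ⟨h1, h2⟩ := cv_num hr hS hC ht hCE
  have hΓ := cv_crv hS ht
  have h3 := h0_ge hΓ 1
  rw [dg_one, zero_add] at h3
  have h4 : (h0 (1 : Cart (subM hS.var y)) 1 : ℝ) ≤ T E H H := by
    obtain ⟨z, hz⟩ := Pool.Agent.H83.RT.dg_dvd hΓ (resD hS.var y (ψ H))
    have h5 := h1 H
    rw [hz, hr.tri.s12] at h5
    push_cast at h5
    have he : (1 : ℝ) ≤ h0 (1 : Cart (subM hS.var y)) 1 := by exact_mod_cast h0_one_pos hΓ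
    rw [← h5] at hp ⊢
    have h6 : (0 : ℝ) < z := by
      by_contra h7
      push Not at h7
      have := mul_nonpos_of_nonneg_of_nonpos (show (0 : ℝ) ≤ (h0 (1 : Cart (subM hS.var y)) 1 : ℝ) by linarith) h7
      linarith
    have h7 : (1 : ℝ) ≤ z := by
      have : (0 : ℤ) < z := by exact_mod_cast h6
      exact_mod_cast this
    nlinarith
  have h5 : ((Pool.Agent.H41.TK.chi (subM hS.var y) : ℤ) : ℝ) ≤ h0 (1 : Cart (subM hS.var y)) 1 := by exact_mod_cast h3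
  rw [h2] at h5
  linarith

/-- the light cone estimate for `M = u N ^ n` -/
theorem lc_g (hr : RR T l c) (hS : Sf H S ψ) (hi : ∀ A B C, ∃ z : ℤ, T A B C = z) {N u E : Cart X} (hNN : T N N H = 0)
    (hβ : 0 < T N H H) (ht : 0 < T N u H) {c₁ n : ℝ} (hu : 0 < T u u H + 2 * c₁ * T N u H) (hn : c₁ < n)
    (he : 0 ≤ T N E H) (h1 : n * T N E H + T u E H ≤ 0) (h2 : n * T N E H + T u E H ≤ T E E H) :
    2 * T E H H < T u H H + c₁ * T N H H := by
  have htr := hr.tri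
  obtain ⟨F, hF⟩ : ∃ F : Fin 4 → Cart X, F = ![N, u, H, E] := ⟨_, rfl⟩
  obtain ⟨P, hP⟩ : ∃ P : Fin 4 → ℝ, P = ![1, 0, 0, 0] := ⟨_, rfl⟩
  obtain ⟨U, hU⟩ : ∃ U : Fin 4 → ℝ, U = ![c₁, 1, 0, 0] := ⟨_, rfl⟩
  obtain ⟨H', hH'⟩ : ∃ H' : Fin 4 → ℝ, H' = ![0, 0, 1, 0] := ⟨_, rfl⟩
  obtain ⟨E', hE'⟩ : ∃ E' : Fin 4 → ℝ, E' = ![0, 0, 0, 1] := ⟨_, rfl⟩
  have a1 : bl T H F P P = 0 := by
    rw [bl_apply, hF, hP]
    unfold bf
    simp [Fin.sum_univ_four, hNN]
  have a2 : bl T H F P H' = T N H H := by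
    rw [bl_apply, hF, hP, hH']
    unfold bf
    simp [Fin.sum_univ_four]
  have a3 : bl T H F H' H' = T H H H := by
    rw [bl_apply, hF, hH']
    unfold bf
    simp [Fin.sum_univ_four]
  have a4 : bl T H F P U = T N u H := by
    rw [bl_apply, hF, hP, hU]
    unfold bf
    simp [Fin.sum_univ_four, hNN]
  have a5 : bl T H F U U = T u u H + 2 * c₁ * T N u H := by
    rw [bl_apply, hF, hU]
    unfold bf
    simp [Fin.sum_univ_four, hNN]
    rw [htr.s12 u N H]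
    ring
  have a6 : bl T H F P E' = T N E H := by
    rw [bl_apply, hF, hP, hE']
    unfold bf
    simp [Fin.sum_univ_four]
  have a7 : bl T H F U E' = T u E H + c₁ * T N E H := by
    rw [bl_apply, hF, hU, hE']
    unfold bf
    simp [Fin.sum_univ_four]
    ring
  have a8 : bl T H F E' E' = T E E H := by
    rw [bl_apply, hF, hE']
    unfold bf
    simp [Fin.sum_univ_four]
  have a9 : bl T H F H' E' = T E H H := by
    rw [bl_apply, hF, hH', hE']
    unfold bf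
    simp [Fin.sum_univ_four]
    rw [htr.s12]
  have a10 : bl T H F H' U = T u H H + c₁ * T N H H := by
    rw [bl_apply, hF, hH', hU]
    unfold bf
    simp [Fin.sum_univ_four]
    rw [htr.s12 H N H, htr.s12 H u H]
    ring
  have h3 := lc_abs (b := bl T H F) (p := P) (u := U) (H := H') (E := E') (bl_symm htr F)
    (fun x y hx => hdg_real hr hS hi F x y hx) a1 (by rw [a2]; exact hβ) (by rw [a3]; exact (crv_num hr hS).1)
    (by rw [a4]; exact ht) (by rw [a5]; exact hu) (y := n - c₁) (sub_pos.2 hn) (by rw [a6]; exact he)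
    (by rw [a6, a7]; linarith) (by rw [a6, a7, a8]; linarith)
  rw [a9, a10] at h3
  exact h3

/-- the stuck places: `M = Z + R`, `Z . R ≤ 0` -/
theorem stuck (hr : RR T l c) (hS : Sf H S ψ) (hi : ∀ A B C, ∃ z : ℤ, T A B C = z) {N u : Cart X} (hNN : T N N H = 0)
    (hβ : 0 < T N H H) (ht : 0 < T N u H) {K₁ : ℝ} (hK₁ : 0 ≤ K₁) :
    ∃ (h₀ : ℝ) (n₀ : ℕ), 0 ≤ h₀ ∧ ∀ n ≥ n₀, ∀ Z R : Cart X, (0 < T Z H H ∧ 0 < T N Z H ∧ |T u Z H| ≤ K₁ * T Z H H) →
      (0 < T R H H ∧ 0 ≤ T N R H ∧ |T u R H| ≤ K₁ * T R H H) → (∀ U, T (u * N ^ n) U H = T Z U H + T R U H) →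
      T Z R H ≤ 0 → T N R H = 0 ∧ T R H H ≤ h₀ := by
  classical
  have htr := hr.tri
  obtain ⟨c₁, hc₁⟩ : ∃ c₁, c₁ = (|T u u H| + 1) / T N u H := ⟨_, rfl⟩
  have hc0 : 0 ≤ c₁ := by rw [hc₁]; positivity
  have hc : c₁ * T N u H = |T u u H| + 1 := by rw [hc₁, div_mul_cancel₀ _ ht.ne']
  have huc : 0 < T u u H + 2 * c₁ * T N u H := by
    have := neg_abs_le (T u u H)
    nlinarith [abs_nonneg (T u u H)]
  obtain ⟨h₀, hh⟩ : ∃ h₀, h₀ = |T u H H| + c₁ * T N H H := ⟨_, rfl⟩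
  have hh0 : 0 ≤ h₀ := by rw [hh]; positivity
  obtain ⟨n₀, hn₀⟩ := exists_nat_gt (max c₁ (max (K₁ * h₀) (|T u u H|)))
  refine ⟨h₀, n₀, hh0, fun n hn Z R hZ hR hsum hZR => ?_⟩
  have hnn : (n₀ : ℝ) ≤ n := by exact_mod_cast hn
  have hn1 : c₁ < n := ((le_max_left _ _).trans_lt hn₀).trans_le hnn
  have hn2 : K₁ * h₀ < n := (((le_max_left _ _).trans (le_max_right _ _)).trans_lt hn₀).trans_le hnn
  have hn3 : |T u u H| < n := (((le_max_right _ _).trans (le_max_right _ _)).trans_lt hn₀).trans_le hnn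
  have hnp : (0 : ℝ) < n := by linarith
  obtain ⟨M, hM⟩ : ∃ M, M = u * N ^ n := ⟨_, rfl⟩
  rw [← hM] at hsum
  have hMU : ∀ U, T M U H = T u U H + n * T N U H := fun U => by rw [hM, htr.add, htr.pow]
  have ht1 : 1 ≤ T N u H := by
    obtain ⟨z, hz⟩ := hi N u H
    rw [hz] at ht ⊢
    exact_mod_cast ht
  have hMM : 0 < T M M H := by
    have h1 : T M M H = T u u H + 2 * n * T N u H := by
      rw [hMU, htr.s12 u M H, htr.s12 N M H, hMU u, hMU N, hNN, htr.s12 u N H]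
      ring
    rw [h1]
    have := neg_abs_le (T u u H)
    nlinarith
  -- the key estimate
  have key : ∀ E, (0 < T E H H ∧ 0 ≤ T N E H ∧ |T u E H| ≤ K₁ * T E H H) → T M E H ≤ 0 → T M E H ≤ T E E H →
      T N E H = 0 ∧ T E H H ≤ h₀ := by
    rintro E ⟨hB, hE0, hE1⟩ h1 h2
    rw [hMU] at h1 h2
    have h3 := lc_g hr hS hi hNN hβ ht huc hn1 hE0 (by linarith) (by linarith)
    have h4 : T E H H ≤ h₀ := by
      have := le_abs_self (T u H H)
      have h5 : 0 ≤ c₁ * T N H H := by positivity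
      rw [hh]
      linarith [abs_nonneg (T u H H)]
    refine ⟨?_, h4⟩
    have h5 : (n : ℝ) * T N E H ≤ K₁ * h₀ := by
      have h6 := (abs_le.1 hE1).1
      have h7 := mul_le_mul_of_nonneg_left h4 hK₁
      linarith
    obtain ⟨z, hz⟩ := hi N E H
    rw [hz] at hE0 h5 ⊢
    have hz0 : 0 ≤ z := by exact_mod_cast hE0
    rcases hz0.eq_or_lt with h6 | h6
    · rw [← h6, Int.cast_zero]
    · exfalso
      have h7 : (1 : ℝ) ≤ z := by exact_mod_cast h6
      nlinarith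
  have h1 := hsum M
  have h2 := hsum Z
  have h3 := hsum R
  rw [htr.s12 Z M, htr.s12 R M] at h1
  rw [htr.s12 R Z] at h2
  have h4 := hdg_L htr hi (crv_num hr hS).1 (hdg hr hS) M Z hMM
  have h5 := hdg_L htr hi (crv_num hr hS).1 (hdg hr hS) M R hMM
  have h6 : T M M H * T M Z H ≤ T M Z H ^ 2 :=
    (mul_le_mul_of_nonneg_left (by linarith) hMM.le).trans h4
  have h7 : T M M H * T M R H ≤ T M R H ^ 2 :=
    (mul_le_mul_of_nonneg_left (by linarith) hMM.le).trans h5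
  rcases le_or_gt (T M Z H) 0 with h8 | h8
  · have h9 := (key Z ⟨hZ.1, hZ.2.1.le, hZ.2.2⟩ h8 (by linarith)).1
    linarith [hZ.2.1]
  · rcases le_or_gt (T M R H) 0 with h9 | h9
    · exact key R hR h9 (by linarith)
    · have h10 : T M M H ≤ T M Z H := by
        rw [sq] at h6
        exact le_of_mul_le_mul_right h6 h8
      have h11 : T M M H ≤ T M R H := by
        rw [sq] at h7
        exact le_of_mul_le_mul_right h7 h9
      linarith

end Pool.Agent.H24.RG
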