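import Pool.Agent.H24.RG.Glb

/-!
# [H24 RG LowB] MP_e49dc9_ag: the lower bound near a real nef class `p` with `T(p,p,H) > 0`, bounded losses

`low_b`: for `R₀` there are `C`, `x₀` with `chi - C ≤ h0` for all `L = ∏ G_i ^ n_i`, `|n_i - x p_i| ≤ R₀`, `x ≥ x₀`;
no condition on the `G_i` (they need not be in the rational hull of `p`).
`low_w`: `p` integral.
-/

set_option autoImplicit false

namespace Pool.Agent.H24.RG

open Pool.Agent.H54.RV Pool.Agent.H83.TU Pool.Agent.H83.TK Pool.Agent.H24.TK Pool.Agent.H41.TK Pool.Agent.H24.VP Pool.Agent.H24.ZL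

variable {k K : Type} [Field k] [Field K] [Algebra k K] {X : Mod k K}
  {T : Cart X → Cart X → Cart X → ℝ} {l : Cart X → ℝ} {c : ℝ} {H : Cart X} {k' L : Type} [Field k'] [Field L]
  [Algebra k' L] {S : Mod k' L} {ψ : Cart X →* Cart S} {r : ℕ} {G : Fin r → Cart X} {p : Fin r → ℝ}

theorem fin_pos' (p : Fin r → ℝ) (M : ℝ) :
    ∃ δ : ℝ, 0 < δ ∧ ∀ z : Fin r → ℤ, (∀ i, |(z i : ℝ)| ≤ M) → ∑ i, p i * z i ≠ 0 → δ ≤ |∑ i, p i * z i| := by
  classical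
  obtain ⟨N, hN⟩ := exists_nat_ge M
  obtain ⟨A, hA⟩ : ∃ A : Set (Fin r → ℤ), A = {z | (∀ i, |(z i : ℝ)| ≤ M) ∧ ∑ i, p i * z i ≠ 0} := ⟨_, rfl⟩
  have hfin : A.Finite := by
    refine (Set.finite_Icc (fun _ => -(N : ℤ) : Fin r → ℤ) (fun _ => (N : ℤ))).subset ?_
    rw [hA]
    rintro z ⟨h1, -⟩
    rw [Set.mem_Icc]
    constructor
    · intro i
      have h2 := (abs_le.1 ((h1 i).trans hN)).1
      have h3 : (-(N : ℤ) : ℝ) ≤ z i := by
        push_cast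
        exact h2
      exact_mod_cast h3
    · intro i
      have h2 := (abs_le.1 ((h1 i).trans hN)).2
      exact_mod_cast h2
  rcases A.eq_empty_or_nonempty with h1 | h1
  · refine ⟨1, one_pos, fun z h2 h3 => ?_⟩
    have h4 : z ∈ A := by
      rw [hA]
      exact ⟨h2, h3⟩
    rw [h1] at h4
    exact h4.elim
  · obtain ⟨a, ha, h2⟩ := Set.exists_min_image A (fun z : Fin r → ℤ => |∑ i, p i * z i|) hfin h1
    have ha' := ha
    rw [hA] at ha'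
    refine ⟨|∑ i, p i * a i|, abs_pos.2 ha'.2, fun z h3 h4 => h2 z ?_⟩
    rw [hA]
    exact ⟨h3, h4⟩

theorem t1_prod (ht : Tri T) {ι : Type} (s : Finset ι) (E : ι → Cart X) (V : Cart X) :
    t1 T G p (∏ j ∈ s, E j) V = ∑ j ∈ s, t1 T G p (E j) V := by
  classical
  unfold t1
  rw [Finset.sum_comm]
  refine Finset.sum_congr rfl fun i _ => ?_
  rw [ht.prod2, Finset.mul_sum]

/-- from the stuck places of the sums to `Stk` -/
theorem stk_gen (hr : RR T l c) (hS : Sf H S ψ) {K₁ h₀ c₀ : ℝ} (hQ : Cc S ψ H (Qc T H G p K₁)) (hβ : 0 < t1 T G p H H)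
    {M M' : Cart X} (hMM : M = H * M')
    (h1 : ∀ Z R, Qc T H G p K₁ Z → 0 < t1 T G p Z H → Qc T H G p K₁ R → (∀ U, T M U H = T Z U H + T R U H) →
      T Z R H ≤ 0 → t1 T G p R H = 0 ∧ T R H H ≤ h₀)
    (h2 : ∀ R, t1 T G p R H = 0 → 0 ≤ T R H H → T R H H ≤ h₀ → (∀ i, |T (G i) R H| ≤ K₁ * T R H H) → -c₀ ≤ T M R H)
    {r' : ℕ} {E : Fin r' → Cart X} (hE : ∀ i, Cls S ψ (E i)) (hL : LEq (ψ M') (ψ (∏ i, E i))) (hc0 : 0 ≤ c₀) :
    Stk T H h₀ (c₀ + h₀ ^ 2) E := by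
  classical
  intro s hs hcon
  have ht := hr.tri
  have hnum := le_num hr hS hL
  have hsum : ∀ (s' : Finset (Fin r')) (U : Cart X),
      T M U H = T (H * ∏ j ∈ s', E j) U H + T (∏ j ∈ s'ᶜ, E j) U H := by
    intro s' U
    have h3 : (H * ∏ j ∈ s', E j) * ∏ j ∈ s'ᶜ, E j = H * ∏ j, E j := by
      rw [mul_assoc, Finset.prod_mul_prod_compl]
    rw [← ht.add, h3, ht.add H, ← hnum, ← ht.add, ← hMM]
  have hRH : ∀ s' : Finset (Fin r'), T (∏ j ∈ s'ᶜ, E j) H H = ∑ j ∈ s'ᶜ, T (E j) H H := fun s' => by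
    rw [ht.prod]
  have hne : ∀ s' : Finset (Fin r'), s' ≠ Finset.univ → (s'ᶜ).Nonempty := by
    intro s' h3
    rw [Finset.nonempty_iff_ne_empty]
    intro h4
    rw [Finset.compl_eq_empty_iff] at h4
    exact h3 h4
  have hQR : ∀ s' : Finset (Fin r'), s' ≠ Finset.univ → Qc T H G p K₁ (∏ j ∈ s'ᶜ, E j) := fun s' hs' =>
    Finset.prod_induction_nonempty _ _ hQ.mul (hne s' hs') fun j _ => hQ.cls _ (hE j)
  have hQZ : Qc T H G p K₁ (H * ∏ j ∈ s, E j) := by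
    rcases s.eq_empty_or_nonempty with h3 | h3
    · rw [h3, Finset.prod_empty, mul_one]
      exact hQ.self
    · exact hQ.mul _ _ hQ.self (Finset.prod_induction_nonempty _ _ hQ.mul h3 fun j _ => hQ.cls _ (hE j))
  have hZp : 0 < t1 T G p (H * ∏ j ∈ s, E j) H := by
    rw [t1_mul ht, t1_prod ht]
    exact add_pos_of_pos_of_nonneg hβ (Finset.sum_nonneg fun j _ => (hQ.cls _ (hE j)).2.1)
  have hZR : T (H * ∏ j ∈ s, E j) (∏ j ∈ sᶜ, E j) H ≤ 0 := by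
    rw [ht.prod2]
    exact Finset.sum_nonpos fun j hj => hcon j (Finset.mem_compl.1 hj)
  obtain ⟨h3, h4⟩ := h1 _ _ hQZ hZp (hQR s hs) (hsum s) hZR
  rw [t1_prod ht] at h3
  rw [hRH] at h4
  refine ⟨h4, fun s' hs' hne' => ?_⟩
  have hsub : s'ᶜ ⊆ sᶜ := Finset.compl_subset_compl.2 hs'
  have hN0 : ∀ j ∈ sᶜ, t1 T G p (E j) H = 0 :=
    (Finset.sum_eq_zero_iff_of_nonneg fun j _ => (hQ.cls _ (hE j)).2.1).1 h3
  obtain ⟨R, hR⟩ : ∃ R, R = ∏ j ∈ s'ᶜ, E j := ⟨_, rfl⟩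
  have hR1 : t1 T G p R H = 0 := by
    rw [hR, t1_prod ht]
    exact Finset.sum_eq_zero fun j hj => hN0 j (hsub hj)
  have hRQ : Qc T H G p K₁ R := by
    rw [hR]
    exact hQR s' hne'
  have hRh : T R H H ≤ h₀ := by
    rw [hR, hRH]
    exact (Finset.sum_le_sum_of_subset_of_nonneg hsub fun j _ _ => (cls_pos hr hS (hE j)).le).trans h4
  have h5 := hsum s' R
  rw [← hR] at h5
  have h6 := sq_bd hr hS hRQ.1.le hRh
  have h7 := h2 R hR1 hRQ.1.le hRh hRQ.2.2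
  have h8 : -(c₀ + h₀ ^ 2) ≤ T (H * ∏ j ∈ s', E j) R H := by linarith
  by_contra hno
  push Not at hno
  obtain ⟨a₀, ha₀⟩ := hne s' hne'
  have h9 : T (H * ∏ j ∈ s', E j) R H ≤ T (H * ∏ j ∈ s', E j) (E a₀) H := by
    rw [hR, ht.prod2]
    have h10 := Finset.single_le_sum (f := fun j => -T (H * ∏ j ∈ s', E j) (E j) H)
      (fun j hj => by
        have := hno j (Finset.mem_compl.1 hj)
        nlinarith [sq_nonneg h₀]) ha₀
    simp only [Finset.sum_neg_distrib] at h10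
    linarith
  have h10 := hno a₀ (Finset.mem_compl.1 ha₀)
  linarith

/-- `M = Z + R` with `Z . R ≤ 0`: one of them has `M . E ≤ 0`, `M . E ≤ E . E` -/
theorem split (hr : RR T l c) (hS : Sf H S ψ) {M Z R : Cart X} (hMM : 0 < T M M H)
    (hsum : ∀ U, T M U H = T Z U H + T R U H) (hZR : T Z R H ≤ 0) :
    (T M Z H ≤ 0 ∧ T M Z H ≤ T Z Z H) ∨ (T M R H ≤ 0 ∧ T M R H ≤ T R R H) := by
  have ht := hr.tri
  have h1 := hsum M
  have h2 := hsum Z
  have h3 := hsum R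
  rw [ht.s12 Z M, ht.s12 R M] at h1
  rw [ht.s12 R Z] at h2
  have hi := t_int hr ⟨H, hS.hH⟩
  have h4 := hdg_L ht hi (crv_num hr hS).1 (hdg hr hS) M Z hMM
  have h5 := hdg_L ht hi (crv_num hr hS).1 (hdg hr hS) M R hMM
  have h6 : T M M H * T M Z H ≤ T M Z H ^ 2 :=
    (mul_le_mul_of_nonneg_left (by linarith) hMM.le).trans h4
  have h7 : T M M H * T M R H ≤ T M R H ^ 2 :=
    (mul_le_mul_of_nonneg_left (by linarith) hMM.le).trans h5
  rcases le_or_gt (T M Z H) 0 with h8 | h8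
  · exact Or.inl ⟨h8, by linarith⟩
  · rcases le_or_gt (T M R H) 0 with h9 | h9
    · exact Or.inr ⟨h9, by linarith⟩
    · exfalso
      have h10 : T M M H ≤ T M Z H := by
        rw [sq] at h6
        exact le_of_mul_le_mul_right h6 h8
      have h11 : T M M H ≤ T M R H := by
        rw [sq] at h7
        exact le_of_mul_le_mul_right h7 h9
      linarith

theorem low_core (hX : IsVar X) (hr : RR T l c) (hS : Sf H S ψ) (hnef : ∀ E, Cls S ψ E → 0 ≤ t1 T G p E H)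
    (hβ : 0 < t1 T G p H H) (hpp : 0 < bf T H G p p) (R₀ : ℝ) :
    ∃ C x₀ : ℝ, ∀ (W : Cart X) (n : Fin r → ℤ) (x : ℝ), (∀ U V, T W U V = T (∏ i, G i ^ n i) U V) → x₀ ≤ x →
      (∀ i, |(n i : ℝ) - x * p i| ≤ R₀) → Pool.Agent.H24.VP.chi T l c W - C ≤ h0 W 1 := by
  classical
  have ht := hr.tri
  have hi := t_int hr ⟨H, hS.hH⟩
  obtain ⟨R, hRd⟩ : ∃ R, R = max R₀ 0 := ⟨_, rfl⟩
  have hR : 0 ≤ R := by rw [hRd]; exact le_max_right _ _
  obtain ⟨K₁, hK₁, hcc⟩ := cc_qc hX hr hS hβ hnef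
  obtain ⟨C₁, C₂, hC2⟩ := near2_le (T := T) (H := H) (G := G) (p := p) ht hR
  obtain ⟨a, ha⟩ : ∃ a, a = bf T H G p p := ⟨_, rfl⟩
  obtain ⟨β, hβd⟩ : ∃ β, β = t1 T G p H H := ⟨_, rfl⟩
  obtain ⟨κ, hκd⟩ : ∃ κ, κ = T H H H := ⟨_, rfl⟩
  have ha0 : 0 < a := by rw [ha]; exact hpp
  have hβ0 : 0 < β := by rw [hβd]; exact hβ
  obtain ⟨τ, hτ⟩ : ∃ τ, τ = a / (4 * β ^ 2) := ⟨_, rfl⟩
  have hτ0 : 0 < τ := by rw [hτ]; positivity
  have hτ1 : 4 * τ * t1 T G p H H ^ 2 ≤ bf T H G p p := by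
    rw [← ha, ← hβd, hτ]
    apply le_of_eq
    field_simp
  obtain ⟨K₀, hK₀⟩ : ∃ K₀, K₀ = r * R * K₁ := ⟨_, rfl⟩
  have hK : 0 ≤ K₀ := by rw [hK₀]; positivity
  obtain ⟨h₀, hh₀⟩ : ∃ h₀, h₀ = K₀ / τ := ⟨_, rfl⟩
  have hh : 0 ≤ h₀ := by rw [hh₀]; positivity
  obtain ⟨δ, hδ, hfin⟩ := fin_pos' p (K₁ * h₀)
  obtain ⟨C, hC⟩ := low3 hr hS hh (show 0 ≤ K₀ * h₀ + h₀ ^ 2 by positivity)
  obtain ⟨C₃, hC₃⟩ : ∃ C₃, C₃ = R * ∑ i, |T (G i) H H| := ⟨_, rfl⟩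
  obtain ⟨x₁, hx₁⟩ := quad_ev (show 0 < bf T H G p p / 2 by linarith) (C₁ / 2 + 3 / 2 * β)
    (C₂ / 2 + 3 / 2 * C₃ - (7 / 6 * κ + l H))
  obtain ⟨x₂, hx₂⟩ := lin_ev hβ (C₃ + 2 * κ)
  obtain ⟨x₃, hx₃⟩ := quad_ev hpp C₁ C₂
  obtain ⟨x₄, hx₄⟩ := lin_ev (show 0 < τ * β by positivity) K₀
  obtain ⟨x₅, hx₅⟩ := lin_ev hδ (K₀ * h₀)
  refine ⟨C, max 1 (max x₁ (max x₂ (max x₃ (max x₄ x₅)))), fun W n x hWn hx hn => ?_⟩
  simp only [max_le_iff] at hx
  obtain ⟨hx0, hx1, hx2, hx3, hx4, hx5⟩ := hx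
  replace hx1 := hx₁ x hx1
  replace hx2 := hx₂ x hx2
  replace hx3 := hx₃ x hx3
  replace hx4 := hx₄ x hx4
  replace hx5 := hx₅ x hx5
  have hxp : 0 < x := by linarith
  have hn' : ∀ i, |(n i : ℝ) - x * p i| ≤ R := fun i => (hn i).trans (by rw [hRd]; exact le_max_left _ _)
  have h2 := hC2 n x hxp.le hn'
  have h3 := fun U => near1 (G := G) (p := p) ht n x U H
  have h4 := sum_bd _ (fun i => T (G i) H H) hn'
  rw [← hC₃] at h4
  rw [← ha] at h2 hx1 hx3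
  have hWW' : T W W H = T (∏ i, G i ^ n i) (∏ i, G i ^ n i) H := by rw [hWn, ht.s12, hWn]
  rw [← hWW'] at h2
  simp only [← hWn] at h3
  rw [abs_le] at h2 h4
  have hWW : 0 < T W W H := by linarith [h2.1]
  -- the perturbation
  have hpt : ∀ E, (∀ i, |T (G i) E H| ≤ K₁ * T E H H) → |T W E H - x * t1 T G p E H| ≤ K₀ * T E H H := by
    intro E hE1
    rw [h3 E, add_sub_cancel_left]
    refine (sum_bd _ _ hn').trans ?_
    have h5 : ∑ i, |T (G i) E H| ≤ ∑ _i : Fin r, K₁ * T E H H := Finset.sum_le_sum fun i _ => hE1 i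
    rw [Finset.sum_const, Finset.card_univ, Fintype.card_fin, nsmul_eq_mul] at h5
    calc R * ∑ i, |T (G i) E H| ≤ R * (r * (K₁ * T E H H)) := mul_le_mul_of_nonneg_left h5 hR
      _ = K₀ * T E H H := by rw [hK₀]; ring
  have key : ∀ E, Qc T H G p K₁ E → T W E H ≤ 0 → T W E H ≤ T E E H → t1 T G p E H = 0 ∧ T E H H ≤ h₀ := by
    rintro E ⟨hB, hE0, hE1⟩ h5 h6
    have h7 := (abs_le.1 (hpt E hE1)).1
    have hxe : x * t1 T G p E H ≤ K₀ * T E H H := by linarith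
    have hEE : -(K₀ * T E H H) ≤ T E E H := by
      have : 0 ≤ x * t1 T G p E H := mul_nonneg hxp.le hE0
      linarith
    have h8 := bnd hr hS hi hpp hτ0 hτ1 hβ hxp (by rw [← hβd]; exact hx4.le) hB hE0 hxe hEE
    have hB' : T E H H ≤ h₀ := by
      rw [hh₀, le_div_iff₀ hτ0]
      linarith
    refine ⟨?_, hB'⟩
    choose z hz using fun i => hi (G i) E H
    by_contra hne
    have h9 : ∑ i, p i * (z i : ℝ) = t1 T G p E H := by
      unfold t1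
      refine Finset.sum_congr rfl fun i _ => ?_
      rw [hz]
    have h10 := hfin z (fun i => by
      rw [← hz]
      exact (hE1 i).trans (mul_le_mul_of_nonneg_left hB' hK₁)) (by rw [h9]; exact hne)
    rw [h9, abs_of_nonneg hE0] at h10
    have h11 : δ * x ≤ K₀ * h₀ := by
      calc δ * x ≤ t1 T G p E H * x := mul_le_mul_of_nonneg_right h10 hxp.le
        _ = x * t1 T G p E H := mul_comm _ _
        _ ≤ K₀ * T E H H := hxe
        _ ≤ K₀ * h₀ := mul_le_mul_of_nonneg_left hB' hK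
    linarith
  have hWe : W = H * (W * H⁻¹) := by rw [mul_comm, inv_mul_cancel_right]
  refine hC W (W * H⁻¹) hWe (fun r' E hE hL => stk_gen hr hS hcc hβ hWe ?_ ?_ hE hL (by positivity)) ?_
  · intro Z R' hZ hZp hR' hsum hZR
    rcases split hr hS hWW hsum hZR with ⟨h5, h6⟩ | ⟨h5, h6⟩
    · have h7 := (key Z hZ h5 h6).1
      linarith
    · exact key R' hR' h5 h6
  · intro R' hR1 hR2 hR3 hR4
    have h5 := (abs_le.1 (hpt R' hR4)).1
    rw [hR1, mul_zero, sub_zero] at h5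
    have h6 := mul_le_mul_of_nonneg_left hR3 hK
    linarith
  · have e1 : T (W * H⁻¹) H H = T W H H - κ := by
      rw [ht.add, ht.inv, ← hκd]
      ring
    have h3' := h3 H
    rw [← hβd] at h3' hx2
    have hlt : T H H H < T (W * H⁻¹) H H := by
      rw [e1, ← hκd]
      linarith [h4.1]
    have e2 : chS T l H (W * H⁻¹) = T W W H / 2 - 3 / 2 * T W H H + (7 / 6 * κ + l H) := by
      unfold chS
      rw [e1]
      simp only [ht.add, ht.add2, ht.inv, ht.inv2]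
      rw [ht.s12 H W H, ← hκd]
      ring
    have h5 := t4 hr hS _ hlt
    rw [e2] at h5
    have h6 : (0 : ℝ) < h0 (ψ (W * H⁻¹)) 1 := by
      refine lt_of_lt_of_le ?_ h5
      have h7 := h2.1
      have h8 := h4.2
      nlinarith
    exact_mod_cast h6

/-- **(LB) with bounded losses**, for all divisors numerically equal to `∏ G_i ^ n_i` -/
theorem low_b' [CharZero k] [T0Space X.P] (h : Hyp X) (hr : RR T l c) {A : Cart X} (hA : Ample A)
    (hnef : ∀ E B : Cart X, Ample B → (∀ W, Ample W → 0 < T W E B) → 0 ≤ t1 T G p E B)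
    (hβ : 0 < t1 T G p A A) (hpp : 0 < bf T A G p p) (R₀ : ℝ) :
    ∃ C x₀ : ℝ, ∀ (W : Cart X) (n : Fin r → ℤ) (x : ℝ), (∀ U V, T W U V = T (∏ i, G i ^ n i) U V) → x₀ ≤ x →
      (∀ i, |(n i : ℝ) - x * p i| ≤ R₀) → Pool.Agent.H24.VP.chi T l c W - C ≤ h0 W 1 := by
  obtain ⟨m, k', L, i1, i2, i3, S, ψ, hm, hS⟩ := exists_sf h hA
  have hm0 : (0 : ℝ) < m := by exact_mod_cast hm
  refine low_core h.var hr hS (fun E hE => hnef E _ hS.hH fun W hW => cv_pos hr hS hE hW) ?_ ?_ R₀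
  · have e : t1 T G p (A ^ m) (A ^ m) = m * (m * t1 T G p A A) := by
      unfold t1
      rw [Finset.mul_sum, Finset.mul_sum]
      refine Finset.sum_congr rfl fun i _ => ?_
      rw [hr.tri.pow2, hr.tri.pow3]
      ring
    rw [e]
    positivity
  · have e : bf T (A ^ m) G p p = m * bf T A G p p := by
      unfold bf
      rw [Finset.mul_sum]
      refine Finset.sum_congr rfl fun i _ => ?_
      rw [Finset.mul_sum]
      refine Finset.sum_congr rfl fun j _ => ?_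
      rw [hr.tri.pow3]
      ring
    rw [e]
    positivity

/-- **(LB) with bounded losses** -/
theorem low_b [CharZero k] [T0Space X.P] (h : Hyp X) (hr : RR T l c) {A : Cart X} (hA : Ample A)
    (hnef : ∀ E B : Cart X, Ample B → (∀ W, Ample W → 0 < T W E B) → 0 ≤ t1 T G p E B)
    (hβ : 0 < t1 T G p A A) (hpp : 0 < bf T A G p p) (R₀ : ℝ) :
    ∃ C x₀ : ℝ, ∀ (n : Fin r → ℤ) (x : ℝ), x₀ ≤ x → (∀ i, |(n i : ℝ) - x * p i| ≤ R₀) →
      Pool.Agent.H24.VP.chi T l c (∏ i, G i ^ n i) - C ≤ h0 (∏ i, G i ^ n i) 1 := by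
  obtain ⟨C, x₀, hC⟩ := low_b' h hr hA hnef hβ hpp R₀
  exact ⟨C, x₀, fun n x hx hn => hC _ n x (fun _ _ => rfl) hx hn⟩

/-- **(LB) for `w P ^ n`**, `P` integral and nef, `T(P,P,A) > 0` -/
theorem low_w [CharZero k] [T0Space X.P] (h : Hyp X) (hr : RR T l c) {A P : Cart X} (hA : Ample A)
    (hP : ∀ B : Cart X, Ample B → Ample (B * P)) (hβ : 0 < T P A A) (hpp : 0 < T P P A) (w : Cart X) :
    ∃ (C : ℝ) (n₀ : ℕ), ∀ n ≥ n₀, Pool.Agent.H24.VP.chi T l c (w * P ^ n) - C ≤ h0 (w * P ^ n) 1 := by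
  obtain ⟨G, hG⟩ : ∃ G : Fin 2 → Cart X, G = ![P, w] := ⟨_, rfl⟩
  obtain ⟨p, hp⟩ : ∃ p : Fin 2 → ℝ, p = ![1, 0] := ⟨_, rfl⟩
  have e : ∀ U V, t1 T G p U V = T P U V := fun U V => by
    unfold t1
    rw [hG, hp]
    simp [Fin.sum_univ_two]
  have e2 : bf T A G p p = T P P A := by
    unfold bf
    rw [hG, hp]
    simp [Fin.sum_univ_two]
  have hn : ∀ n : ℕ, ∀ B : Cart X, Ample B → Ample (B * P ^ n) := by
    intro n
    induction n with
    | zero =>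
      intro B hB
      rw [pow_zero, mul_one]
      exact hB
    | succ n ih =>
      intro B hB
      rw [pow_succ, ← mul_assoc]
      exact hP _ (ih B hB)
  obtain ⟨C, x₀, hC⟩ := low_b (G := G) (p := p) h hr hA (fun E B hB hW => by
    rw [e]
    by_contra hneg
    push Not at hneg
    obtain ⟨n, hn'⟩ := exists_nat_gt (T B E B / -T P E B)
    rw [div_lt_iff₀ (by linarith)] at hn'
    have h2 := hW _ (hn n B hB)
    rw [hr.tri.add, hr.tri.pow] at h2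
    linarith) (by rw [e]; exact hβ) (by rw [e2]; exact hpp) 1
  obtain ⟨n₀, hn₀⟩ := exists_nat_ge x₀
  refine ⟨C, n₀, fun n hn => ?_⟩
  have h1 := hC ![(n : ℤ), 1] n (hn₀.trans (by exact_mod_cast hn)) (by
    intro i
    rw [hp]
    fin_cases i <;> simp)
  have h2 : ∏ i, G i ^ (![(n : ℤ), 1] i) = w * P ^ n := by
    rw [hG]
    simp [Fin.prod_univ_two, mul_comm]
  rw [h2] at h1
  exact h1

end Pool.Agent.H24.RG
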