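import Pool.Agent.H24.RG.Cost

/-!
# [H24 RG Ram3] THEOREM Z0 (MP_e49dc9_ag), (GLB): the chain of curves with losses at the stuck places

`Stk`: at a stuck place the remaining curves have degree at most `h₀` and can be added with `- c₁ ≤ T(Z,E,H)`.
`low3`: one constant for all `M = H M'` with `0 < h0 (ψ M') 1` and `Stk` for all decompositions of `M'`.
-/

set_option autoImplicit false

namespace Pool.Agent.H24.RG

open Pool.Agent.H54.RV Pool.Agent.H83.TU Pool.Agent.H83.TK Pool.Agent.H24.TK Pool.Agent.H41.TK Pool.Agent.H24.VP Pool.Agent.H24.ZL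

variable {k K : Type} [Field k] [Field K] [Algebra k K] {X : Mod k K}
  {T : Cart X → Cart X → Cart X → ℝ} {l : Cart X → ℝ} {c : ℝ} {H : Cart X} {k' L : Type} [Field k'] [Field L]
  [Algebra k' L] {S : Mod k' L} {ψ : Cart X →* Cart S}

/-- stuck places -/
def Stk (T : Cart X → Cart X → Cart X → ℝ) (H : Cart X) (h₀ c₁ : ℝ) {r : ℕ} (E : Fin r → Cart X) : Prop :=
  ∀ s : Finset (Fin r), s ≠ Finset.univ → (∀ a ∉ s, T (H * ∏ j ∈ s, E j) (E a) H ≤ 0) →
    ∑ j ∈ sᶜ, T (E j) H H ≤ h₀ ∧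
      ∀ s', s ⊆ s' → s' ≠ Finset.univ → ∃ a ∉ s', -c₁ ≤ T (H * ∏ j ∈ s', E j) (E a) H

/-- the excess -/
noncomputable def ex (T : Cart X → Cart X → Cart X → ℝ) (l : Cart X → ℝ) (H : Cart X) (ψ : Cart X →* Cart S)
    (W : Cart X) : ℝ := (h0 (ψ W) 1 : ℝ) - chS T l H W

theorem kap_one (hr : RR T l c) (hS : Sf H S ψ) : 1 ≤ T H H H := by
  have h1 := (crv_num hr hS).1
  obtain ⟨z, hz⟩ := t_int hr ⟨H, hS.hH⟩ H H H
  rw [hz] at h1 ⊢
  exact_mod_cast h1

/-- `R . R ≤ h₀ ²` -/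
theorem sq_bd (hr : RR T l c) (hS : Sf H S ψ) {R : Cart X} {h₀ : ℝ} (h1 : 0 ≤ T R H H) (h2 : T R H H ≤ h₀) :
    T R R H ≤ h₀ ^ 2 := by
  have h3 := hdg_L hr.tri (t_int hr ⟨H, hS.hH⟩) (crv_num hr hS).1 (hdg hr hS) H R (crv_num hr hS).1
  rw [hr.tri.s12 H R H] at h3
  have h4 := kap_one hr hS
  have h5 : T R H H ^ 2 ≤ h₀ ^ 2 := pow_le_pow_left₀ h1 h2 2
  rcases le_or_gt (T R R H) 0 with h6 | h6
  · exact h6.trans (sq_nonneg _)
  · nlinarith

theorem ram3 (hr : RR T l c) (hS : Sf H S ψ) {h₀ c₁ : ℝ} (hh : 0 ≤ h₀) (hc : 0 ≤ c₁) {r : ℕ} {E : Fin r → Cart X}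
    (hE : ∀ i, Cls S ψ (E i)) (hst : Stk T H h₀ c₁ E) (i : ℕ) (hi1 : 1 ≤ i) :
    ex T l H ψ (H ^ i * (H * ∏ j, E j)) ≤ ex T l H ψ (H ^ (i + 1)) +
      (if c₁ + 1 < i then 0 else h₀ * (c₁ + 4 * h₀ + (h₀ ^ 2 + h₀) / 2)) := by
  classical
  have ht := hr.tri
  obtain ⟨C₂, hC₂⟩ : ∃ C₂, C₂ = c₁ + 4 * h₀ + (h₀ ^ 2 + h₀) / 2 := ⟨_, rfl⟩
  have hC0 : 0 ≤ C₂ := by rw [hC₂]; positivity
  rw [← hC₂]
  have hi0 : (1 : ℝ) ≤ i := by exact_mod_cast hi1
  have e0 : ∀ (s : Finset (Fin r)) (a : Fin r), a ∉ s →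
      H ^ i * (H * ∏ j ∈ insert a s, E j) = H ^ i * (H * ∏ j ∈ s, E j) * E a := by
    intro s a ha
    rw [Finset.prod_insert ha, mul_comm (E a), ← mul_assoc H, ← mul_assoc (H ^ i)]
  have e1 : ∀ (s : Finset (Fin r)) (a : Fin r), T (H ^ i * (H * ∏ j ∈ s, E j) * E a) (E a) H =
      i * T (E a) H H + T (H * ∏ j ∈ s, E j) (E a) H + T (E a) (E a) H := by
    intro s a
    rw [ht.add, ht.add, ht.pow, ht.s12 H (E a) H]
  have hcard : ∀ (s : Finset (Fin r)) (a : Fin r) (n : ℕ), a ∉ s → sᶜ.card = n + 1 → (insert a s)ᶜ.card = n := by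
    intro s a n ha hs
    rw [Finset.compl_insert, Finset.card_erase_of_mem (Finset.mem_compl.2 ha), hs]
    rfl
  -- a free step
  have free : ∀ (s : Finset (Fin r)) (a : Fin r), a ∉ s → T (E a) H H < i * T (E a) H H + T (H * ∏ j ∈ s, E j) (E a) H →
      ex T l H ψ (H ^ i * (H * ∏ j ∈ insert a s, E j)) ≤ ex T l H ψ (H ^ i * (H * ∏ j ∈ s, E j)) := by
    intro s a ha h1
    rw [e0 s a ha]
    have h8 := cv_shp hr hS (hE a) (H ^ i * (H * ∏ j ∈ s, E j) * E a) (by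
      rw [e1]
      linarith)
    rw [mul_inv_cancel_right] at h8
    unfold ex
    linarith
  -- phase two
  have ph2 : ∀ (n : ℕ) (s : Finset (Fin r)), sᶜ.card = n → ∑ j ∈ sᶜ, T (E j) H H ≤ h₀ →
      (∀ s', s ⊆ s' → s' ≠ Finset.univ → ∃ a ∉ s', -c₁ ≤ T (H * ∏ j ∈ s', E j) (E a) H) →
      ex T l H ψ (H ^ i * (H * ∏ j, E j)) ≤ ex T l H ψ (H ^ i * (H * ∏ j ∈ s, E j)) +
        (if c₁ + 1 < i then 0 else n * C₂) := by
    intro n
    induction n with
    | zero =>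
      intro s hs _ _
      rw [Finset.card_eq_zero, Finset.compl_eq_empty_iff] at hs
      rw [hs]
      simp
    | succ n ih =>
      intro s hs hsum hst'
      have hs1 : s ≠ Finset.univ := by
        rintro rfl
        rw [Finset.compl_univ, Finset.card_empty] at hs
        omega
      obtain ⟨a, ha, h1⟩ := hst' s (Finset.Subset.refl s) hs1
      have hsub : (insert a s)ᶜ ⊆ sᶜ := Finset.compl_subset_compl.2 (Finset.subset_insert a s)
      have h2 := ih (insert a s) (hcard s a n ha hs)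
        ((Finset.sum_le_sum_of_subset_of_nonneg hsub fun j _ _ => (cls_pos hr hS (hE j)).le).trans hsum)
        (fun s' hs' hne => hst' s' ((Finset.subset_insert a s).trans hs') hne)
      refine h2.trans ?_
      have hp := cls_one hr hS (hE a)
      have hah : T (E a) H H ≤ h₀ :=
        (Finset.single_le_sum (f := fun j => T (E j) H H) (fun j _ => (cls_pos hr hS (hE j)).le)
          (Finset.mem_compl.2 ha)).trans hsum
      by_cases hci : c₁ + 1 < i
      · rw [if_pos hci, if_pos hci]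
        have h3 := free s a ha (by nlinarith)
        linarith
      · rw [if_neg hci, if_neg hci]
        have h3 := cost hr hS (hE a) (H ^ i * (H * ∏ j ∈ s, E j) * E a)
        rw [mul_inv_cancel_right, e1] at h3
        have h4 := adj_ge hr hS (hE a)
        have h5 := sq_bd hr hS (by linarith) hah
        have h6 : max (-(i * T (E a) H H + T (H * ∏ j ∈ s, E j) (E a) H + T (E a) (E a) H)) 0 ≤ c₁ + 3 * h₀ := by
          refine max_le ?_ (by positivity)
          have h7 : 0 ≤ (i : ℝ) * T (E a) H H := by positivity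
          linarith
        have h8 : c₁ + 3 * h₀ + h₀ + (h₀ ^ 2 + h₀) / 2 ≤ C₂ := by rw [hC₂]; linarith
        rw [e0 s a ha]
        unfold ex
        push_cast
        rw [add_mul, one_mul]
        linarith
  -- phase one
  have step : ∀ (n : ℕ) (s : Finset (Fin r)), sᶜ.card = n →
      ex T l H ψ (H ^ i * (H * ∏ j, E j)) ≤ ex T l H ψ (H ^ i * (H * ∏ j ∈ s, E j)) +
        (if c₁ + 1 < i then 0 else h₀ * C₂) := by
    intro n
    induction n with
    | zero =>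
      intro s hs
      rw [Finset.card_eq_zero, Finset.compl_eq_empty_iff] at hs
      rw [hs]
      have : (0 : ℝ) ≤ if c₁ + 1 < i then 0 else h₀ * C₂ := by
        split_ifs
        · exact le_rfl
        · exact mul_nonneg hh hC0
      linarith
    | succ n ih =>
      intro s hs
      have hs1 : s ≠ Finset.univ := by
        rintro rfl
        rw [Finset.compl_univ, Finset.card_empty] at hs
        omega
      by_cases hex : ∃ a ∉ s, 0 < T (H * ∏ j ∈ s, E j) (E a) H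
      · obtain ⟨a, ha, h1⟩ := hex
        have h2 := ih (insert a s) (hcard s a n ha hs)
        have hp := cls_pos hr hS (hE a)
        have h3 := free s a ha (by nlinarith)
        linarith
      · push Not at hex
        obtain ⟨h1, h2⟩ := hst s hs1 hex
        have h3 := ph2 (n + 1) s hs h1 h2
        refine h3.trans ?_
        have h4 : ((n + 1 : ℕ) : ℝ) ≤ h₀ := by
          refine le_trans ?_ h1
          have h5 : ∑ j ∈ sᶜ, (1 : ℝ) ≤ ∑ j ∈ sᶜ, T (E j) H H := Finset.sum_le_sum fun j _ => cls_one hr hS (hE j)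
          rw [Finset.sum_const, nsmul_eq_mul, mul_one, hs] at h5
          exact h5
        by_cases hci : c₁ + 1 < i
        · rw [if_pos hci, if_pos hci]
        · rw [if_neg hci, if_neg hci]
          have := mul_le_mul_of_nonneg_right h4 hC0
          linarith
  have h1 := step _ ∅ rfl
  rwa [Finset.prod_empty, mul_one, ← pow_succ] at h1

theorem ram3' (hr : RR T l c) (hS : Sf H S ψ) {h₀ c₁ : ℝ} (hh : 0 ≤ h₀) (hc : 0 ≤ c₁) {M M' : Cart X}
    (hMM : M = H * M') (hst : ∀ (r : ℕ) (E : Fin r → Cart X), (∀ i, Cls S ψ (E i)) →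
      LEq (ψ M') (ψ (∏ i, E i)) → Stk T H h₀ c₁ E) (hM' : 0 < h0 (ψ M') 1) (i : ℕ) (hi1 : 1 ≤ i) :
    ex T l H ψ (H ^ i * M) ≤ ex T l H ψ (H ^ (i + 1)) +
      (if c₁ + 1 < i then 0 else h₀ * (c₁ + 4 * h₀ + (h₀ ^ 2 + h₀) / 2)) := by
  have ht := hr.tri
  obtain ⟨r, E, hE, hL⟩ := dec hr hS M' hM'
  have h1 := ram3 hr hS hh hc hE (hst r E hE hL) i hi1
  have hLE : LEq (ψ (H ^ i * M)) (ψ (H ^ i * (H * ∏ j, E j))) := by
    rw [hMM, ← mul_assoc, ← mul_assoc, map_mul ψ (H ^ i * H), map_mul ψ (H ^ i * H)]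
    exact (LEq.refl _).mul hL
  have h2 := hLE.h0 1
  have h3 := le_num hr hS hLE
  have h4 : chS T l H (H ^ i * M) = chS T l H (H ^ i * (H * ∏ j, E j)) := by
    unfold chS
    rw [h3 (H ^ i * M), h3 H, ht.s12 _ (H ^ i * M) H, h3]
  have h5 : ex T l H ψ (H ^ i * M) = ex T l H ψ (H ^ i * (H * ∏ j, E j)) := by
    unfold ex
    rw [h2, h4]
  rw [h5]
  exact h1

theorem low3 (hr : RR T l c) (hS : Sf H S ψ) {h₀ c₁ : ℝ} (hh : 0 ≤ h₀) (hc : 0 ≤ c₁) : ∃ C : ℝ, ∀ M M' : Cart X,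
    M = H * M' → (∀ (r : ℕ) (E : Fin r → Cart X), (∀ i, Cls S ψ (E i)) →
      LEq (ψ M') (ψ (∏ i, E i)) → Stk T H h₀ c₁ E) → 0 < h0 (ψ M') 1 → chi T l c M - C ≤ h0 M 1 := by
  classical
  obtain ⟨i₀, hi₀⟩ := sf_ev hr hS 1 H hS.hH
  obtain ⟨i₁, hi₁⟩ := exists_nat_gt (c₁ + 1)
  obtain ⟨g, hg⟩ : ∃ g : ℕ → ℝ, g = fun i : ℕ => |ex T l H ψ (H ^ (i + 1))| +
      (if c₁ + 1 < i then 0 else h₀ * (c₁ + 4 * h₀ + (h₀ ^ 2 + h₀) / 2)) := ⟨_, rfl⟩
  have hg0 : ∀ i, i₀ + i₁ ≤ i → g i = 0 := by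
    intro i hi
    have h1 := hi₀ (i + 1) (by omega)
    rw [one_mul] at h1
    have h2 : c₁ + 1 < i := hi₁.trans_le (by exact_mod_cast (show i₁ ≤ i by omega))
    rw [hg]
    simp only
    rw [if_pos h2]
    unfold ex
    rw [h1, sub_self, abs_zero, add_zero]
  refine ⟨∑ i ∈ Finset.range (i₀ + i₁), g (i + 1), fun M M' h2 h3 h5 => ?_⟩
  have hram : ∀ i, 1 ≤ i → (h0 (ψ (H ^ i * M)) 1 : ℝ) - chS T l H (H ^ i * M) ≤ g i := by
    intro i hi1
    have h6 := ram3' hr hS hh hc h2 h3 h5 i hi1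
    rw [hg]
    have h7 := le_abs_self (ex T l H ψ (H ^ (i + 1)))
    simp only
    unfold ex at h6 h7 ⊢
    linarith
  -- the descent
  have hstep : ∀ j : ℕ, (h0 (M * H ^ j) 1 : ℝ) - chi T l c (M * H ^ j) ≤
      (h0 M 1 : ℝ) - chi T l c M + ∑ i ∈ Finset.range j, g (i + 1) := by
    intro j
    induction j with
    | zero => rw [pow_zero, mul_one, Finset.range_zero, Finset.sum_empty, add_zero]
    | succ j ih =>
      rw [Finset.sum_range_succ]
      have h1 : M * H ^ (j + 1) * H⁻¹ = M * H ^ j := by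
        rw [pow_succ, ← mul_assoc, mul_inv_cancel_right]
      have h2 := hS.le (M * H ^ (j + 1))
      rw [h1] at h2
      have h3 := hr.chi_sub H (M * H ^ (j + 1))
      rw [h1] at h3
      have h4 := hram (j + 1) (by omega)
      rw [mul_comm (H ^ (j + 1)) M] at h4
      have h6 : (h0 (M * H ^ (j + 1)) 1 : ℝ) ≤ h0 (M * H ^ j) 1 + h0 (ψ (M * H ^ (j + 1))) 1 := by
        exact_mod_cast h2
      linarith
  obtain ⟨j₀, hj₀⟩ := hr.ev M H hS.hH
  obtain ⟨j, hj⟩ : ∃ j, j = max (i₀ + i₁) j₀ := ⟨_, rfl⟩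
  have h1 := hj₀ j (by rw [hj]; exact le_max_right _ _)
  have h2 := hstep j
  rw [h1, sub_self] at h2
  have h3 : ∑ i ∈ Finset.range j, g (i + 1) = ∑ i ∈ Finset.range (i₀ + i₁), g (i + 1) := by
    symm
    refine Finset.sum_subset (Finset.range_subset_range.2 (by rw [hj]; exact le_max_left _ _))
      fun i _ hi => ?_
    rw [Finset.mem_range, not_lt] at hi
    rw [hg0 (i + 1) (by omega)]
  rw [h3] at h2
  linarith

end Pool.Agent.H24.RG
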